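import Pool.Agent.MP_515557_an.H11.MBasic

/-! The continuation argument: from the removal lemma to a monotone subset. -/

set_option autoImplicit false

open MeasureTheory Set Metric Filter Topology

namespace Pool.Agent.MP_515557_an.H71

open Pool.Agent.MP_515557_an.H11.Mono

variable {v : ℂ → ℂ} {l : ℂ → ℝ} {M K R σ η Λ t : ℝ} {C : Set ℂ}

theorem FF_add (v : ℂ → ℂ) (t : ℝ) (x y : ℂ) :
    FF (fun z => v z + t • z) x y = FF v x y + t * ‖x - y‖ ^ 2 := by
  rw [← ip_self]
  simp only [FF, ip, Complex.sub_re, Complex.sub_im, Complex.add_re, Complex.add_im,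
    Complex.smul_re, Complex.smul_im, smul_eq_mul]
  ring

theorem data_add (h : Data v l M K) (ht : 0 ≤ t) :
    Data (fun z => v z + t • z) (fun z => l z + t) (M + t) K := by
  have hd : ∀ x, HasFDerivAt (fun z => v z + t • z)
      (fderiv ℝ v x + t • ContinuousLinearMap.id ℝ ℂ) x := fun x =>
    (h.diff x).hasFDerivAt.add ((hasFDerivAt_id x).const_smul t)
  refine ⟨by linarith [h.Mpos], h.Kpos, fun x => (hd x).differentiableAt, fun x => ?_,
    fun x y => ?_, h.cont.add continuous_const, fun x w => ?_⟩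
  · rw [(hd x).fderiv]
    refine (norm_add_le _ _).trans (add_le_add (h.bd x) ?_)
    rw [norm_smul, ContinuousLinearMap.norm_id, mul_one, Real.norm_of_nonneg ht]
  · rw [(hd x).fderiv, (hd y).fderiv, add_sub_add_right_eq_sub]
    exact h.lip x y
  · rw [(hd x).fderiv]
    have h1 := h.le x w
    rw [← ip_self] at h1 ⊢
    simp only [ip, add_apply, smul_apply,
      ContinuousLinearMap.id_apply, Complex.add_re, Complex.add_im, Complex.smul_re,
      Complex.smul_im, smul_eq_mul] at h1 ⊢
    linarith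

/-- the measure of the part of the ball where the margin fails -/
noncomputable def mu (l : ℂ → ℝ) (R σ t : ℝ) : ℝ :=
  volume.real (closedBall (0 : ℂ) R ∩ {x | l x + t < σ})

theorem mu_anti {s : ℝ} (h : s ≤ t) : mu l R σ t ≤ mu l R σ s :=
  measureReal_mono (fun x hx => ⟨hx.1, by have := hx.2; simp only [mem_ofPred_eq] at *; linarith⟩)
    ((measure_mono inter_subset_left).trans_lt measure_closedBall_lt_top).ne

/-- the states of the continuation argument -/
structure St (v : ℂ → ℂ) (l : ℂ → ℝ) (R σ η Λ t : ℝ) (C : Set ℂ) : Prop where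
  nn : 0 ≤ t
  cpt : IsCompact C
  sub : C ⊆ closedBall 0 R
  mono : ∀ x ∈ C, ∀ y ∈ C, 0 ≤ FF v x y + t * ‖x - y‖ ^ 2
  marg : ∀ x ∈ C, σ ≤ l x + t
  int : ∫ x in closedBall (0 : ℂ) R \ C, (l x + t) ≤ σ * mu l R σ t + η * (Λ - t)

theorem intInd {f : ℂ → ℝ} (hf : Continuous f) {A : Set ℂ} (hA : MeasurableSet A)
    (hs : A ⊆ closedBall 0 R) : Integrable (A.indicator f) :=
  ((hf.continuousOn.integrableOn_compact (isCompact_closedBall 0 R)).mono_set hs).integrable_indicator
    hA

theorem step (hR : SRemoval) (h : Data v l M K) (hσ : 0 < σ) (hη : 0 < η)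
    (hs : St v l R σ η Λ t C) (ht : 0 < t) :
    ∃ t' C', t' < t ∧ C' ⊆ C ∧ St v l R σ η Λ t' C' := by
  obtain ⟨δ, hδ, hδ0, E, hEC, hE, hm, hi⟩ := hR _ _ _ _ σ R C (data_add h ht.le)
    ⟨hσ, hs.cpt, fun x hx y hy => by rw [FF_add]; exact hs.mono x hx y hy, hs.marg⟩ hs.sub η hη
    (min t σ) (lt_min ht hσ)
  have hl := h.cont
  have hδt := hδ0.trans (min_le_left _ _)
  set D := (C \ E) ∩ {x | σ + δ ≤ l x + t} with hD
  have hsub : closure D ⊆ C := closure_minimal (fun x hx => hx.1.1) hs.cpt.isClosed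
  refine ⟨t - δ, closure D, by linarith, hsub, by linarith,
    hs.cpt.of_isClosed_subset isClosed_closure hsub, hsub.trans hs.sub, fun x hx y hy => ?_,
    fun x hx => ?_, ?_⟩
  · have h1 : closure (D ×ˢ D) ⊆
        {g : ℂ × ℂ | 0 ≤ FF v g.1 g.2 + (t - δ) * ‖g.1 - g.2‖ ^ 2} := by
      refine closure_minimal (fun g hg => ?_) (isClosed_le continuous_const
        ((continuous_FF h.continuous).add (by fun_prop)))
      have := hm _ hg.1.1 _ hg.2.1
      rw [FF_add] at this
      simp only [mem_ofPred_eq]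
      linarith
    exact h1 (show (x, y) ∈ _ by rw [closure_prod_eq]; exact ⟨hx, hy⟩)
  · have h1 : closure D ⊆ {x | σ + δ ≤ l x + t} :=
      closure_minimal inter_subset_right (isClosed_le continuous_const (by fun_prop))
    have := h1 hx
    simp only [mem_ofPred_eq] at this
    linarith
  have mB : MeasurableSet (closedBall (0 : ℂ) R) := measurableSet_closedBall
  have mC := mB.diff hs.cpt.measurableSet
  have mD := mB.diff (isClosed_closure (s := D)).measurableSet
  have mA : ∀ s : ℝ, MeasurableSet (closedBall (0 : ℂ) R ∩ {x | l x + s < σ}) := fun s =>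
    mB.inter (isOpen_lt (by fun_prop) continuous_const).measurableSet
  have i1 := intInd (f := fun x => l x + t) (by fun_prop) mC sdiff_subset
  have i2 := intInd (f := fun _ => δ) continuous_const mC sdiff_subset
  have i3 := intInd (f := fun x => l x + t) (by fun_prop) hE (hEC.trans hs.sub)
  have i4 := intInd (f := fun _ => σ) continuous_const (mA (t - δ)) inter_subset_left
  have i5 := intInd (f := fun _ => σ) continuous_const (mA t) inter_subset_left
  have key := integral_mono (intInd (f := fun x => l x + (t - δ)) (by fun_prop) mD sdiff_subset)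
    (((i1.sub i2).add i3).add (i4.sub i5)) fun x => by
      have a1 : x ∈ C → σ ≤ l x + t := hs.marg x
      have a2 : x ∈ E → x ∈ C := fun hx => hEC hx
      have a3 : x ∈ C → x ∈ closedBall (0 : ℂ) R := fun hx => hs.sub hx
      have a4 : x ∈ closure D → x ∈ C := fun hx => hsub hx
      have a5 : x ∈ C → x ∉ E → σ + δ ≤ l x + t → x ∈ closure D := fun b1 b2 b3 =>
        subset_closure ⟨⟨b1, b2⟩, b3⟩
      classical
      simp only [Pi.add_apply, Pi.sub_apply, indicator_apply, Set.mem_sdiff, mem_inter_iff,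
        mem_ofPred_eq]
      by_cases c1 : x ∈ closedBall (0 : ℂ) R <;> by_cases c2 : x ∈ C <;>
        by_cases c3 : x ∈ E <;> by_cases c4 : x ∈ closure D <;>
        by_cases c5 : l x + t < σ <;> by_cases c6 : l x + (t - δ) < σ <;>
        simp only [c1, c2, c3, c4, c5, c6, and_true, and_false, not_true,
          not_false_iff, if_true, if_false, forall_const, false_implies,
          imp_false, not_le] at a1 a2 a3 a4 a5 ⊢ <;> linarith
  rw [integral_add' ((i1.sub i2).add i3) (i4.sub i5), integral_add' (i1.sub i2) i3,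
    integral_sub' i1 i2, integral_sub' i4 i5] at key
  simp only [integral_indicator mC, integral_indicator mD, integral_indicator hE,
    integral_indicator (mA _), setIntegral_const, smul_eq_mul] at key
  have h2 := hs.int
  simp only [mu, Measure.real] at key h2 ⊢
  linarith

theorem limit (h : Data v l M K) (hσ : 0 < σ) (hη : 0 < η) {τ : ℕ → ℝ} {D : ℕ → Set ℂ}
    (hs : ∀ n, St v l R σ η Λ (τ n) (D n)) (hτ : Antitone τ) (hD : Antitone D) :
    St v l R σ η Λ (⨅ n, τ n) (⋂ n, D n) := by
  have hb : BddBelow (range τ) := ⟨0, by rintro _ ⟨n, rfl⟩; exact (hs n).nn⟩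
  have hT := tendsto_atTop_ciInf hτ hb
  have hl := h.cont
  have hc : IsClosed (⋂ n, D n) := isClosed_iInter fun n => (hs n).cpt.isClosed
  refine ⟨le_ciInf fun n => (hs n).nn, (hs 0).cpt.of_isClosed_subset hc (iInter_subset _ 0),
    (iInter_subset _ 0).trans (hs 0).sub, fun x hx y hy => ?_, fun x hx => ?_, ?_⟩
  · exact ge_of_tendsto' ((hT.mul_const _).const_add _) fun n =>
      (hs n).mono x (mem_iInter.1 hx n) y (mem_iInter.1 hy n)
  · exact ge_of_tendsto' (hT.const_add _) fun n => (hs n).marg x (mem_iInter.1 hx n)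
  have mB : MeasurableSet (closedBall (0 : ℂ) R) := measurableSet_closedBall
  have mD := fun n => mB.diff (hs n).cpt.measurableSet
  have key := tendsto_integral_of_dominated_convergence
    (F := fun n => (closedBall (0 : ℂ) R \ D n).indicator fun x => l x + τ n)
    (f := (closedBall (0 : ℂ) R \ ⋂ n, D n).indicator fun x => l x + ⨅ n, τ n) (μ := volume)
    ((closedBall (0 : ℂ) R).indicator fun x => |l x| + τ 0)
    (fun n => (intInd (by fun_prop) (mD n) sdiff_subset).aestronglyMeasurable)
    (intInd (by fun_prop) mB subset_rfl)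
    (fun n => Eventually.of_forall fun x => by
      by_cases hx : x ∈ closedBall (0 : ℂ) R \ D n
      · rw [indicator_of_mem hx, indicator_of_mem hx.1, Real.norm_eq_abs]
        refine (abs_add_le _ _).trans ?_
        rw [abs_of_nonneg (hs n).nn]
        linarith [hτ n.zero_le]
      · rw [indicator_of_notMem hx, norm_zero]
        exact indicator_nonneg (fun y _ => add_nonneg (abs_nonneg _) (hs 0).nn) x)
    (Eventually.of_forall fun x => by
      by_cases hx : x ∈ closedBall (0 : ℂ) R \ ⋂ n, D n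
      · rw [indicator_of_mem hx]
        obtain ⟨n, hn⟩ := not_forall.1 fun h' => hx.2 (mem_iInter.2 h')
        refine (hT.const_add (l x)).congr' ?_
        filter_upwards [eventually_ge_atTop n] with k hk
        rw [indicator_of_mem (show x ∈ _ \ D k from ⟨hx.1, fun h' => hn (hD hk h')⟩)]
      · rw [indicator_of_notMem hx]
        refine tendsto_const_nhds.congr fun k => (indicator_of_notMem (fun h' => hx ?_) _).symm
        exact ⟨h'.1, fun h'' => h'.2 (mem_iInter.1 h'' k)⟩)
  simp only [integral_indicator (mD _), integral_indicator (mB.diff hc.measurableSet)] at key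
  refine le_of_tendsto' key fun n => (hs n).int.trans ?_
  have h1 : ⨅ n, τ n ≤ τ n := ciInf_le hb n
  have h2 := mul_le_mul_of_nonneg_left (mu_anti (l := l) (R := R) (σ := σ) h1) hσ.le
  nlinarith

theorem reach (hR : SRemoval) (h : Data v l M K) (hσ : 0 < σ) (hη : 0 < η)
    (hs : St v l R σ η Λ t C) : ∃ C', St v l R σ η Λ 0 C' := by
  let S := {p : ℝ × Set ℂ // St v l R σ η Λ p.1 p.2}
  have hn : ∀ (n : ℕ) (p : S), ∃ q : S, q.1.1 ≤ p.1.1 ∧ q.1.2 ⊆ p.1.2 ∧
      ∀ r : S, r.1.1 ≤ p.1.1 → r.1.2 ⊆ p.1.2 → q.1.1 ≤ r.1.1 + 1 / ((n : ℝ) + 1) := by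
    intro n p
    let T : Set ℝ := {a | ∃ r : S, r.1.1 ≤ p.1.1 ∧ r.1.2 ⊆ p.1.2 ∧ r.1.1 = a}
    have hb : BddBelow T := ⟨0, by rintro _ ⟨r, -, -, rfl⟩; exact r.2.nn⟩
    obtain ⟨_, ⟨q, h1, h2, rfl⟩, h3⟩ := Real.lt_sInf_add_pos (s := T) ⟨_, p, le_rfl, subset_rfl, rfl⟩
      (Nat.one_div_pos_of_nat (n := n))
    exact ⟨q, h1, h2, fun r h4 h5 => by linarith [csInf_le hb ⟨r, h4, h5, rfl⟩]⟩
  choose g h1 h2 h3 using hn
  let s : ℕ → S := fun n => Nat.rec ⟨(t, C), hs⟩ g n
  have hτ : Antitone fun n => (s n).1.1 := antitone_nat_of_succ_le fun n => h1 n (s n)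
  have hL := limit h hσ hη (fun n => (s n).2) hτ (antitone_nat_of_succ_le fun n => h2 n (s n))
  rcases hL.nn.eq_or_lt with h0 | h0
  · exact ⟨_, h0 ▸ hL⟩
  obtain ⟨t', C', h4, h5, h6⟩ := step hR h hσ hη hL h0
  have hb : BddBelow (range fun n => (s n).1.1) := ⟨0, by rintro _ ⟨n, rfl⟩; exact (s n).2.nn⟩
  obtain ⟨n, hn⟩ := exists_nat_one_div_lt (sub_pos.2 h4)
  have h7 := h3 n (s n) ⟨(t', C'), h6⟩ (h4.le.trans (ciInf_le hb n))
    (h5.trans (iInter_subset _ n))
  have h8 : ⨅ n, (s n).1.1 ≤ (g n (s n)).1.1 := ciInf_le hb (n + 1)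
  simp only at h7
  linarith

theorem mc (hR : SRemoval) : SMC := by
  intro v l M K R η h hη
  obtain ⟨L, hL⟩ := (isCompact_closedBall (0 : ℂ) R).exists_bound_of_continuousOn
    h.cont.continuousOn
  set V := volume.real (closedBall (0 : ℂ) R)
  have hV : 0 ≤ V := measureReal_nonneg
  have hM := h.Mpos
  set σ := η / (2 * (V + 1)) with hσd
  have hσ : 0 < σ := by positivity
  set Λ := M + σ + |L| with hΛd
  have hΛ : 0 < Λ := by positivity
  have h0 : St v l R σ (η / (2 * Λ)) Λ Λ (closedBall 0 R) := by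
    refine ⟨hΛ.le, isCompact_closedBall _ _, subset_rfl, fun x _ y _ => ?_, fun x hx => ?_, ?_⟩
    · have h1 := abs_ip_le (v x - v y) (x - y)
      have h2 := mul_le_mul_of_nonneg_right (h.norm_sub_le y x) (norm_nonneg (x - y))
      have h3 := neg_abs_le (ip (v x - v y) (x - y))
      have h4 : M * ‖x - y‖ ^ 2 ≤ Λ * ‖x - y‖ ^ 2 :=
        mul_le_mul_of_nonneg_right (by linarith [abs_nonneg L]) (sq_nonneg _)
      unfold FF
      nlinarith
    · have h1 := hL x hx
      rw [Real.norm_eq_abs] at h1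
      linarith [neg_abs_le (l x), le_abs_self L]
    · simp only [Set.sdiff_self, Measure.restrict_empty, integral_zero_measure, sub_self, mul_zero,
        add_zero]
      exact mul_nonneg hσ.le measureReal_nonneg
  obtain ⟨C, hC⟩ := reach hR h hσ (by positivity) h0
  refine ⟨C, hC.cpt, hC.sub, fun x hx y hy => by simpa using hC.mono x hx y hy,
    fun x hx => by linarith [hC.marg x hx], ?_⟩
  have h1 := hC.int
  have h2 : mu l R σ 0 ≤ V + 1 :=
    (measureReal_mono inter_subset_left measure_closedBall_lt_top.ne).trans (by linarith)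
  have h3 : σ * (V + 1) = η / 2 := by rw [hσd]; field_simp
  have h4 : η / (2 * Λ) * (Λ - 0) = η / 2 := by rw [sub_zero]; field_simp
  simp only [add_zero] at h1
  linarith [mul_le_mul_of_nonneg_left h2 hσ.le]

end Pool.Agent.MP_515557_an.H71
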